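import Pool.Agent.Helper75.PX.Stmts

/-!
# Quaternion algebras: generators
-/

set_option autoImplicit false

universe u

open Module TensorProduct Polynomial

namespace Pool.Agent.Helper75.PX

theorem Q4_rel {K D : Type*} [Field K] [Ring D] [Algebra K D] (x : D)
    (hi : IsIntegral K x) (hd : (minpoly K x).natDegree ≤ 2) :
    ∃ c1 c0 : K, x * x + c1 • x + algebraMap K D c0 = 0 := by
  set P : K[X] := minpoly K x * X ^ (2 - (minpoly K x).natDegree) with hP
  have hm : P.Monic := (minpoly.monic hi).mul (monic_X_pow _)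
  have hdeg : P.natDegree = 2 := by
    rw [hP, (minpoly.monic hi).natDegree_mul (monic_X_pow _), natDegree_X_pow]
    omega
  have h0 : aeval x P = 0 := by
    rw [hP, map_mul, minpoly.aeval, zero_mul]
  have hl : P.coeff 2 = 1 := by
    have := hm.coeff_natDegree
    rwa [hdeg] at this
  refine ⟨P.coeff 1, P.coeff 0, ?_⟩
  rw [aeval_eq_sum_range, hdeg] at h0
  simp only [Finset.sum_range_succ, Finset.sum_range_zero, zero_add, pow_zero, pow_one, hl,
    one_smul] at h0
  rw [Algebra.algebraMap_eq_smul_one, ← h0, pow_two]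
  abel

theorem Q4_div (K D : Type u) [Field K] [DivisionRing D] [Algebra K D] [Algebra.IsCentral K D]
    (h2 : (2 : K) ≠ 0) (hf : finrank K D = 4)
    (hr : ∀ x : D, ∃ c1 c0 : K, x * x + c1 • x + algebraMap K D c0 = 0) :
    ∃ (i j : D) (x y : K), i * i = algebraMap K D x ∧ j * j = algebraMap K D y ∧
    i * j = -(j * i) ∧ x ≠ 0 ∧ y ≠ 0 := by
  have hex : ∃ x : D, ∀ k : K, x ≠ algebraMap K D k := by
    by_contra hcon
    push Not at hcon
    have hs : Function.Surjective (Algebra.linearMap K D) := fun x => by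
      obtain ⟨k, hk⟩ := hcon x
      exact ⟨k, hk.symm⟩
    have := LinearMap.finrank_range_le (Algebra.linearMap K D)
    rw [LinearMap.range_eq_top.2 hs, finrank_top, hf, finrank_self] at this
    omega
  obtain ⟨x, hx⟩ := hex
  obtain ⟨c1, c0, hc⟩ := hr x
  obtain ⟨i, hi⟩ : ∃ i : D, i = x + algebraMap K D (c1 / 2) := ⟨_, rfl⟩
  have hcomm : ∀ (k : K) (d : D), algebraMap K D k * d = d * algebraMap K D k :=
    fun k d => Algebra.commutes k d
  have hii : i * i = algebraMap K D (c1 ^ 2 / 4 - c0) := by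
    have e1 : (c1 / 2) + (c1 / 2) = c1 := by field_simp; norm_num
    have e2 : (c1 / 2) * (c1 / 2) = c1 ^ 2 / 4 := by
      have h4 : (4 : K) = 2 * 2 := by norm_num
      rw [h4]; field_simp
    have e3 : algebraMap K D (c1 / 2) * x + x * algebraMap K D (c1 / 2) = c1 • x := by
      rw [← hcomm, ← add_mul, ← map_add, e1, Algebra.smul_def]
    have e4 : x * x = - (c1 • x) - algebraMap K D c0 := by
      have := hc
      rw [add_assoc, add_eq_zero_iff_eq_neg] at this
      rw [this]; abel
    calc i * i = x * x + (algebraMap K D (c1 / 2) * x + x * algebraMap K D (c1 / 2)) +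
          algebraMap K D (c1 / 2) * algebraMap K D (c1 / 2) := by
          rw [hi]; noncomm_ring
      _ = algebraMap K D (c1 ^ 2 / 4 - c0) := by
          rw [e3, e4, ← map_mul, e2, map_sub]; abel
  have hik : ∀ k : K, i ≠ algebraMap K D k := by
    intro k hk
    apply hx (k - c1 / 2)
    rw [map_sub, ← hk, hi]; abel
  have hi0 : i ≠ 0 := by
    have := hik 0
    rwa [map_zero] at this
  have hy : ∃ y : D, y * i ≠ i * y := by
    by_contra hcon
    push Not at hcon
    have hmem : i ∈ Subalgebra.center K D := by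
      rw [Subalgebra.mem_center_iff]
      exact hcon
    have hc := Algebra.IsCentral.out (K := K) (D := D) hmem
    rw [Algebra.mem_bot] at hc
    obtain ⟨k, hk⟩ := hc
    exact hik k hk.symm
  obtain ⟨y, hy⟩ := hy
  obtain ⟨j, hj⟩ : ∃ j : D, j = y - i * y * i⁻¹ := ⟨_, rfl⟩
  have hj0 : j ≠ 0 := by
    intro h
    apply hy
    have : y = i * y * i⁻¹ := sub_eq_zero.1 (hj ▸ h)
    calc y * i = i * y * i⁻¹ * i := by rw [← this]
      _ = i * y := by rw [mul_assoc, inv_mul_cancel₀ hi0, mul_one]
  have hji : j * i = y * i - i * y := by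
    rw [hj, sub_mul, mul_assoc (i * y), inv_mul_cancel₀ hi0, mul_one]
  have hij : i * j = i * y - y * i := by
    rw [hj, mul_sub, ← mul_assoc, ← mul_assoc, hii, hcomm, mul_assoc, ← hii, mul_assoc,
      mul_inv_cancel₀ hi0, mul_one]
  have hanti : i * j = -(j * i) := by rw [hij, hji]; abel
  obtain ⟨d1, d0, hd⟩ := hr j
  have hconj : i * (j * j) = (j * j) * i := by
    rw [← mul_assoc, hanti, neg_mul, mul_assoc, hanti, mul_neg, neg_neg, mul_assoc]
  have hd1 : d1 = 0 := by
    have e1 : (j * j + d1 • j + algebraMap K D d0) * i = 0 := by rw [hd, zero_mul]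
    have e2 : i * (j * j + d1 • j + algebraMap K D d0) = 0 := by rw [hd, mul_zero]
    have e3 : (2 * d1) • (j * i) = 0 := by
      have : (j * j + d1 • j + algebraMap K D d0) * i -
          i * (j * j + d1 • j + algebraMap K D d0) = (2 * d1) • (j * i) := by
        rw [add_mul, add_mul, mul_add, mul_add, hconj, hcomm, smul_mul_assoc, mul_smul_comm,
          hanti, two_mul, add_smul, smul_neg]
        abel
      rw [← this, e1, e2, sub_zero]
    rcases smul_eq_zero.1 e3 with h | h
    · rcases mul_eq_zero.1 h with h | h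
      · exact absurd h h2
      · exact h
    · exact absurd h (mul_ne_zero hj0 hi0)
  have hjj : j * j = algebraMap K D (-d0) := by
    rw [hd1, zero_smul, add_zero] at hd
    rw [map_neg]
    exact eq_neg_of_add_eq_zero_left hd
  refine ⟨i, j, _, _, hii, hjj, hanti, ?_, ?_⟩
  · intro h
    rw [h, map_zero] at hii
    exact hi0 (mul_self_eq_zero.1 hii)
  · intro h
    rw [h, map_zero] at hjj
    exact hj0 (mul_self_eq_zero.1 hjj)

theorem Q4_tr {K A B : Type*} [Field K] [Ring A] [Algebra K A] [Ring B] [Algebra K B]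
    (e : B →ₐ[K] A)
    (h : ∃ (i j : B) (x y : K), i * i = algebraMap K B x ∧ j * j = algebraMap K B y ∧
    i * j = -(j * i) ∧ x ≠ 0 ∧ y ≠ 0) :
    ∃ (i j : A) (x y : K), i * i = algebraMap K A x ∧ j * j = algebraMap K A y ∧
    i * j = -(j * i) ∧ x ≠ 0 ∧ y ≠ 0 := by
  obtain ⟨i, j, x, y, h1, h2, h3, h4, h5⟩ := h
  refine ⟨e i, e j, x, y, ?_, ?_, ?_, h4, h5⟩
  · rw [← map_mul, h1, AlgHom.commutes]
  · rw [← map_mul, h2, AlgHom.commutes]
  · rw [← map_mul, h3, map_neg, map_mul]

theorem st_Q4 (h1 : ST_WA.{u}) (h2 : ST_MPD.{u}) (_h3 : ST_MDV.{u}) : ST_Q4.{u} := by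
  intro K Q _ _ _ _ _ hf h20
  have : FiniteDimensional K Q := Module.finite_of_finrank_pos (by rw [hf]; norm_num)
  obtain ⟨n, D, hD1, hD2, hn, hfd, hcen, hfr, ⟨e⟩⟩ := h1 K Q
  rw [hf] at hfr
  have hn2 : n = 1 ∨ n = 2 := by
    have : n ≤ 2 := by
      by_contra hcon
      push Not at hcon
      have h9 : 9 ≤ n ^ 2 := by nlinarith
      have hpos : 0 < finrank K D := by
        rcases Nat.eq_zero_or_pos (finrank K D) with h | h
        · rw [h, mul_zero] at hfr; omega
        · exact h
      nlinarith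
    omega
  rcases hn2 with rfl | rfl
  · have hf4 : finrank K D = 4 := by omega
    refine Q4_tr (e.symm.toAlgHom.comp (Matrix.scalarAlgHom (Fin 1) K)) ?_
    refine Q4_div K D h20 hf4 fun x => Q4_rel x (Algebra.IsIntegral.isIntegral x) ?_
    exact h2 K D 2 (by norm_num) (by rw [hf4]; norm_num) x
  · refine Q4_tr e.symm.toAlgHom ?_
    refine ⟨!![1, 0; 0, -1], !![0, 1; 1, 0], 1, 1, ?_, ?_, ?_, one_ne_zero, one_ne_zero⟩
    · rw [map_one, Matrix.one_fin_two]
      simp
    · rw [map_one, Matrix.one_fin_two]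
      simp
    · simp

end Pool.Agent.Helper75.PX
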